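import Pool.Agent.NH78.SG.Fin

/-!
# Class groups of `m`-rank at least `r₂ + 6`, in almost all signatures, for all `m`
-/

set_option autoImplicit false

namespace Pool.Agent.Results.MP_176ace_nt.AlmostAllSignatures

open NumberField

/-- Let `2 r + 57 ≤ n`, and let `n` be odd or `r` be even. For every `m ≥ 2` there are number fields of
degree `n` with exactly `r` complex places and of arbitrarily large discriminant whose class group contains
`(ℤ/m)^(r+6)`. -/
theorem result (n r m : ℕ) (hr : 2 * r + 57 ≤ n) (hp : n % 2 = 1 ∨ r % 2 = 0) (hm : 2 ≤ m) (N : ℕ) :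
    ∃ (K : Type) (_ : Field K) (_ : NumberField K), Module.finrank ℚ K = n ∧
      InfinitePlace.nrComplexPlaces K = r ∧ (N : ℤ) < |discr K| ∧
      ∃ f : Multiplicative (Fin (r + 6) → ZMod m) →* ClassGroup (𝓞 K),
        Function.Injective f := by
  obtain ⟨F, v₀, hF, hS⟩ := Pool.Agent.NH78.SG.t_EXTS n r hr hp
  obtain ⟨D, v₁, v₂, h1, h2, h3⟩ := Pool.Agent.NH78.SG.t_DAT2 n r F v₀ hF hS
  exact Pool.Agent.NH78.SG.t_FLD n r m N (by omega) hm D v₁ v₂ h1 h2 h3

end Pool.Agent.Results.MP_176ace_nt.AlmostAllSignatures
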