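import Pool.Agent.NH14.CN.CoreQ2
import Pool.Agent.NH14.CN.ST2
import Pool.Agent.NH14.CN.Zeta
import Pool.Agent.NH14.CN.GR
import Pool.Agent.NH14.CN.Int
import Pool.Agent.NH14.CN.Div
import Pool.Agent.NH14.CN.Vdm
import Pool.Agent.NH14.CN.Root
import Pool.Agent.NH14.CN.Pap
import Pool.Agent.NH14.CN.Cnt2
import Pool.Agent.R713.AS.Data
import Pool.Agent.W289.CG.Fin
import Pool.Agent.TH805.CG.Base7
import Pool.Agent.NH9.PX.Fin

/-!
# Many number fields of degree `n` whose class group has large `m`-rank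

For all `n ≥ 3` and `m ≥ 2` and every signature with `r` complex places, the number of the different discriminants
`d`, `|d| ≤ X`, of number fields of degree `n` with exactly `r` complex places whose class group contains
`(ℤ/m)^(r+2)` is at least `X^(1/(m(n-1)) - ε)` for all large `X`. For `r = 0` and `r = ⌊n/2⌋` the same is true with
`(ℤ/m)^(r+E(n))`, where the function `E` is unbounded and `E(n) ≥ n - 1` for `n ≤ 10` and `n = 12`, `E(n) ≥ 4` for
odd `n` with `11 ≤ n ≤ 27` and `E(n) ≥ 6` for all other `n`.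
-/

set_option autoImplicit false

namespace Pool.Agent.Results.MP_176ace_nt.CountingFields

open NumberField

/-- A lower bound for the excess of the rank over the number of complex places, for `r = 0` and `r = ⌊n/2⌋`. -/
def kap (n : ℕ) : ℕ := if n ≤ 10 ∨ n = 12 then n - 1 else if n % 2 = 0 ∨ 29 ≤ n then 6 else 4

/-- The discriminants of the number fields `K` of degree `n` with exactly `r` complex places whose class group
contains a subgroup isomorphic to `(ℤ/m)^R`. -/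
def Discs (n r m R : ℕ) : Set ℤ :=
  {d | ∃ (K : Type) (_ : Field K) (_ : NumberField K), Module.finrank ℚ K = n ∧
    InfinitePlace.nrComplexPlaces K = r ∧
    (∃ f : Multiplicative (Fin R → ZMod m) →* ClassGroup (𝓞 K), Function.Injective f) ∧
    discr K = d}

section proof

open Pool.Agent.W289.CG Pool.Agent.NH14.CN

theorem fields : S_Q2 :=
  t_Q2 (Pool.Agent.W930.CG.cls Pool.Agent.W240.CG.grp Pool.Agent.W125.CG.uni)
    Pool.Agent.W64.CG.val Pool.Agent.W405.CG.loc Pool.Agent.W290.CG.emb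
    Pool.Agent.W349.CG.mu Pool.Agent.W349.CG.red Pool.Agent.W349.CG.WeilT.main
    Pool.Agent.W505.CG.root Pool.Agent.W505.CG.irr Pool.Agent.W505.CG.disc
    Pool.Agent.W240.CG.pl t_ST2 t_ZETA t_GR t_INT t_DIV t_VDM t_ROOT

/-- counting for given data -/
theorem count_of {n k : ℕ} (hn : 3 ≤ n) (hk : 1 ≤ k) (D : Dat n k) (r₁ r : ℕ) (hr : r₁ + 2 * r = n)
    (v₁ v₂ : ℝ) (h₁ : 0 < v₁) (h₁₂ : v₁ < v₂) (hcount : ∀ v, v₁ < v → v < v₂ →
      {X : ℝ | ∏ i, (X - (D.a i : ℝ)) = - v}.ncard = r₁) (m : ℕ) (hm : 2 ≤ m) (ε : ℝ) (hε : 0 < ε) :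
    ∃ X₀ : ℝ, ∀ X : ℝ, X₀ ≤ X → X ^ (1 / ((m : ℝ) * ((n : ℝ) - 1)) - ε) ≤
      (({d : ℤ | d ∈ Discs n r m (r + k) ∧ ((|d| : ℤ) : ℝ) ≤ X}.ncard : ℕ) : ℝ) := by
  obtain ⟨C, N, hfam⟩ := fields n k D r₁ v₁ v₂ (by omega) hk h₁ h₁₂ hcount m hm
  have hA : 1 ≤ 2 * m * (n - 1) := by
    have h1 : 1 ≤ n - 1 := by omega
    have h2 : 1 ≤ 2 * m := by omega
    exact Nat.mul_pos h2 h1
  refine t_CNT2 t_PAP (Discs n r m (r + k)) (2 * m * (n - 1)) C N m.minFac hA
    (Nat.minFac_pos m) ?_ _ ?_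
  · intro q p hq hp hpN hpq hpm
    obtain ⟨K, hK1, hK2, hfr, hreal, hqd, hpd, hbd, hcl⟩ := hfam q p hq hp hpN hpq hpm
    have h7 := rank_eq K
    have h8 := InfinitePlace.card_add_two_mul_card_eq_rank K
    rw [hfr, hreal] at h8
    rw [hreal] at h7
    refine ⟨discr K, ⟨K, hK1, hK2, hfr, by omega, hcl (r + k) (by omega), rfl⟩, discr_ne_zero K,
      hqd, hpd, hbd⟩
  · push_cast
    rw [Nat.cast_sub (by omega), Nat.cast_one]
    have h3 : (3 : ℝ) ≤ n := by exact_mod_cast hn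
    have h4 : (2 : ℝ) ≤ m := by exact_mod_cast hm
    have h5 : (2 : ℝ) / (2 * m * (n - 1)) = 1 / (m * (n - 1)) := by
      have h6 : (m : ℝ) ≠ 0 := by positivity
      have h7 : (n : ℝ) - 1 ≠ 0 := by linarith
      field_simp
    rw [h5]
    linarith

theorem dat_kap (n : ℕ) (hn : 3 ≤ n) : Nonempty (Dat n (kap n)) ∧ 1 ≤ kap n := by
  unfold kap
  split_ifs with h1 h2
  · exact ⟨Pool.Agent.W21.CG.small n (by omega), by omega⟩
  · refine ⟨?_, by norm_num⟩
    by_cases h3 : n % 2 = 0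
    · exact Pool.Agent.TH805.CG6.even6 n (by omega) h3
    · have h6 : n % 6 = 1 ∨ n % 6 = 3 ∨ n % 6 = 5 := by omega
      rcases h6 with h | h | h
      · exact Pool.Agent.TH805.CG6.odd1 n (by omega) h
      · exact Pool.Agent.TH805.CG6.odd3 n (by omega) h
      · exact Pool.Agent.TH805.CG6.odd5 n (by omega) h
  · exact ⟨Pool.Agent.TH805.CG4.all4 n (by omega) (by omega), by norm_num⟩

theorem dat_le {n k : ℕ} (hn : 1 ≤ n) (D : Dat n k) : k ≤ n := by
  classical
  have hd : (pA D.a - Polynomial.C D.c).natDegree = n := by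
    rw [Polynomial.natDegree_sub_C, pA_natDegree]
  have h0 : pA D.a - Polynomial.C D.c ≠ 0 := by
    intro h
    rw [h, Polynomial.natDegree_zero] at hd
    omega
  have h1 : (Finset.univ.image D.b) ⊆ (pA D.a - Polynomial.C D.c).roots.toFinset := by
    intro z hz
    obtain ⟨j, -, rfl⟩ := Finset.mem_image.1 hz
    rw [Multiset.mem_toFinset, Polynomial.mem_roots h0, Polynomial.IsRoot, Polynomial.eval_sub,
      Polynomial.eval_C, D.hab j, sub_self]
  have h2 := Finset.card_le_card h1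
  rw [Finset.card_image_of_injective _ D.hb, Finset.card_univ, Fintype.card_fin] at h2
  calc k ≤ _ := h2
    _ ≤ Multiset.card (pA D.a - Polynomial.C D.c).roots := Multiset.toFinset_card_le _
    _ ≤ (pA D.a - Polynomial.C D.c).natDegree := Polynomial.card_roots' _
    _ = n := hd

open Classical in
/-- the largest number of points for which there are data -/
noncomputable def ex (n : ℕ) : ℕ := Nat.findGreatest (fun k => Nonempty (Dat n k)) n

open Classical in
theorem le_ex {n k : ℕ} (hn : 1 ≤ n) (h : Nonempty (Dat n k)) : k ≤ ex n := by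
  obtain ⟨D⟩ := h
  unfold ex
  exact Nat.le_findGreatest (dat_le hn D) ⟨D⟩

open Classical in
theorem dat_ex {n k : ℕ} (hn : 1 ≤ n) (h : Nonempty (Dat n k)) : Nonempty (Dat n (ex n)) := by
  have hk : k ≤ n := by
    obtain ⟨D⟩ := h
    exact dat_le hn D
  unfold ex
  exact Nat.findGreatest_spec (P := fun k => Nonempty (Dat n k)) hk h

end proof

/-- **Main theorem.** -/
theorem result : ∃ E : ℕ → ℕ, (∀ n, 3 ≤ n → kap n ≤ E n) ∧ (∀ κ B : ℕ, ∃ n, B ≤ n ∧ κ ≤ E n) ∧
    ∀ n r κ m : ℕ, 3 ≤ n → 2 ≤ m → (2 * r ≤ n ∧ κ = 2 ∨ (r = 0 ∨ r = n / 2) ∧ κ = E n) →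
      ∀ ε : ℝ, 0 < ε → ∃ X₀ : ℝ, ∀ X : ℝ, X₀ ≤ X →
        X ^ (1 / ((m : ℝ) * ((n : ℝ) - 1)) - ε) ≤
          (({d : ℤ | d ∈ Discs n r m (r + κ) ∧ ((|d| : ℤ) : ℝ) ≤ X}.ncard : ℕ) : ℝ) := by
  refine ⟨ex, fun n hn => le_ex (by omega) (dat_kap n hn).1, fun κ B => ?_, ?_⟩
  · obtain ⟨n, hn, hD⟩ := Pool.Agent.NH9.PX.t_DATA κ (B + 1)
    exact ⟨n, by omega, le_ex (by omega) hD⟩
  intro n r κ m hn hm h ε hε
  rcases h with ⟨hr, rfl⟩ | ⟨hr, rfl⟩
  · -- all signatures
    obtain ⟨e, p, he, hnp⟩ : ∃ e p : ℕ, e ≤ 1 ∧ n = 1 + e + 2 * (p + 1) := by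
      rcases Nat.even_or_odd n with ⟨k, hk⟩ | ⟨k, hk⟩
      · exact ⟨1, k - 2, le_rfl, by omega⟩
      · exact ⟨0, k - 1, by omega, by omega⟩
    have hdat : ∃ (D : Pool.Agent.W289.CG.Dat n 2) (v₁ v₂ : ℝ), 0 < v₁ ∧ v₁ < v₂ ∧
        ∀ v, v₁ < v → v < v₂ →
        {X : ℝ | ∏ i, (X - (D.a i : ℝ)) = - v}.ncard = n - 2 * r := by
      rcases Nat.lt_or_ge (p + 1) r with h | h
      · -- all roots are complex
        subst hnp
        obtain ⟨D, -⟩ := Pool.Agent.R713.AS.ex_data e p 0 he (by omega)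
        obtain ⟨B, hB⟩ := Pool.Agent.W240.CG.real1 _ D.a (by omega) D.ha
        refine ⟨D, |B| + 1, |B| + 2, by positivity, by linarith, fun v hv _ => ?_⟩
        rw [hB v (by linarith [le_abs_self B])]
        omega
      · subst hnp
        obtain ⟨D, v₁, v₂, h1, h2, h3⟩ := Pool.Agent.R713.AS.ex_data e p r he h
        refine ⟨D, v₁, v₂, h1, h2, fun v hv hv' => ?_⟩
        rw [h3 v hv hv']
        omega
    obtain ⟨D, v₁, v₂, h1, h2, h3⟩ := hdat
    exact count_of hn (by norm_num) D (n - 2 * r) r (by omega) v₁ v₂ h1 h2 h3 m hm ε hε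
  · -- no real or no complex places, up to one
    obtain ⟨D⟩ := dat_ex (by omega) (dat_kap n hn).1
    have hk : 1 ≤ ex n := (dat_kap n hn).2.trans (le_ex (by omega) (dat_kap n hn).1)
    rcases hr with rfl | rfl
    · refine count_of hn hk D n 0 (by omega) (1 / (2 * 3 ^ n)) (1 / 3 ^ n) (by positivity) ?_ ?_ m hm ε hε
      · apply one_div_lt_one_div_of_lt (by positivity)
        have : (0 : ℝ) < 3 ^ n := by positivity
        linarith
      · intro v hv hv'
        have h0 : (0 : ℝ) < v := lt_trans (by positivity) hv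
        refine Pool.Agent.W240.CG.real2 n D.a (by omega) D.ha v h0 ?_
        rwa [lt_div_iff₀ (by positivity)] at hv'
    · obtain ⟨B, hB⟩ := Pool.Agent.W240.CG.real1 n D.a (by omega) D.ha
      refine count_of hn hk D (n % 2) (n / 2) (by omega) (|B| + 1) (|B| + 2) (by positivity) (by linarith)
        (fun v hv _ => hB v (by linarith [le_abs_self B])) m hm ε hε

end Pool.Agent.Results.MP_176ace_nt.CountingFields
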