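import Pool.Agent.NH14.LC.Core
import Pool.Agent.NH14.LC.GR
import Pool.Agent.NH14.LC.ST
import Pool.Agent.NH14.LC.TR
import Pool.Agent.R713.AS.Data
import Pool.Agent.W289.CG.Fin
import Pool.Agent.TH805.CG.Base7

/-!
# Class groups of large `m`-rank with prescribed local conditions

For every degree `n ≥ 3` and every number `r ≤ n / 2` of complex places there is `N₀` such that for all `m ≥ 2` and all
disjoint finite sets `S`, `T` of primes larger than `N₀`, those of `T` not dividing `m`, there are number fields of degree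
`n` with exactly `r` complex places and of arbitrarily large discriminant in which all primes of `S` split completely
and all primes of `T` ramify totally, and whose class group contains `(ℤ/m)^(r+2)` (for `r = 0` and `r = ⌊n/2⌋` even
`(ℤ/m)^(r+κ(n))`).
-/

set_option autoImplicit false

namespace Pool.Agent.Results.MP_176ace_nt.LocalConditions

open NumberField

/-- The excess of the rank over the number `r` of complex places. -/
def kap (n r : ℕ) : ℕ :=
  if r = 0 ∨ r = n / 2 then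
    (if n ≤ 10 ∨ n = 12 then n - 1 else if n % 2 = 0 ∨ 29 ≤ n then 6 else 4)
  else 2

section proof

open Pool.Agent.W289.CG Pool.Agent.NH14.LC

theorem fields : S_FLD :=
  t_FLD (Pool.Agent.W930.CG.cls Pool.Agent.W240.CG.grp Pool.Agent.W125.CG.uni)
    Pool.Agent.W64.CG.val Pool.Agent.W405.CG.loc Pool.Agent.W290.CG.emb
    Pool.Agent.W349.CG.mu Pool.Agent.W349.CG.red Pool.Agent.W349.CG.WeilT.main
    Pool.Agent.W505.CG.root Pool.Agent.W505.CG.st Pool.Agent.W505.CG.irr Pool.Agent.W505.CG.disc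
    Pool.Agent.W240.CG.pl t_GR t_ST t_TR

/-- the data with the right number of real roots -/
theorem data (n r : ℕ) (hn : 3 ≤ n) (hr : 2 * r ≤ n) :
    1 ≤ kap n r ∧ ∃ (D : Dat n (kap n r)) (v₁ v₂ : ℝ), 0 < v₁ ∧ v₁ < v₂ ∧
      ∀ v, v₁ < v → v < v₂ → {X : ℝ | ∏ i, (X - (D.a i : ℝ)) = - v}.ncard = n - 2 * r := by
  by_cases h : r = 0 ∨ r = n / 2
  · have hk : 1 ≤ kap n r := by
      unfold kap
      rw [if_pos h]
      split_ifs <;> omega
    have hD : Nonempty (Dat n (kap n r)) := by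
      unfold kap
      rw [if_pos h]
      split_ifs with h1 h2
      · exact Pool.Agent.W21.CG.small n (by omega)
      · by_cases h3 : n % 2 = 0
        · exact Pool.Agent.TH805.CG6.even6 n (by omega) h3
        · have h6 : n % 6 = 1 ∨ n % 6 = 3 ∨ n % 6 = 5 := by omega
          rcases h6 with h | h | h
          · exact Pool.Agent.TH805.CG6.odd1 n (by omega) h
          · exact Pool.Agent.TH805.CG6.odd3 n (by omega) h
          · exact Pool.Agent.TH805.CG6.odd5 n (by omega) h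
      · exact Pool.Agent.TH805.CG4.all4 n (by omega) (by omega)
    obtain ⟨D⟩ := hD
    refine ⟨hk, D, ?_⟩
    by_cases h0 : r = 0
    · refine ⟨1 / (2 * 3 ^ n), 1 / 3 ^ n, by positivity, ?_, fun v hv hv' => ?_⟩
      · apply one_div_lt_one_div_of_lt (by positivity)
        have : (0 : ℝ) < 3 ^ n := by positivity
        linarith
      · have h1 : (0 : ℝ) < v := lt_trans (by positivity) hv
        have h2 : n - 2 * r = n := by omega
        rw [h2]
        refine Pool.Agent.W240.CG.real2 n D.a (by omega) D.ha v h1 ?_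
        rwa [lt_div_iff₀ (by positivity)] at hv'
    · have h1 : r = n / 2 := h.resolve_left h0
      obtain ⟨B, hB⟩ := Pool.Agent.W240.CG.real1 n D.a (by omega) D.ha
      refine ⟨|B| + 1, |B| + 2, by positivity, by linarith, fun v hv _ => ?_⟩
      rw [hB v (by linarith [le_abs_self B])]
      omega
  · have hk : kap n r = 2 := if_neg h
    rw [hk]
    refine ⟨by norm_num, ?_⟩
    obtain ⟨e, p, he, hnp⟩ : ∃ e p : ℕ, e ≤ 1 ∧ n = 1 + e + 2 * (p + 1) := by
      rcases Nat.even_or_odd n with ⟨k, hk⟩ | ⟨k, hk⟩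
      · exact ⟨1, k - 2, le_rfl, by omega⟩
      · exact ⟨0, k - 1, by omega, by omega⟩
    rcases Nat.lt_or_ge (p + 1) r with h' | h'
    · -- all roots are complex
      subst hnp
      obtain ⟨D, -⟩ := Pool.Agent.R713.AS.ex_data e p 0 he (by omega)
      obtain ⟨B, hB⟩ := Pool.Agent.W240.CG.real1 _ D.a (by omega) D.ha
      refine ⟨D, |B| + 1, |B| + 2, by positivity, by linarith, fun v hv _ => ?_⟩
      rw [hB v (by linarith [le_abs_self B])]
      omega
    · subst hnp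
      obtain ⟨D, v₁, v₂, h1, h2, h3⟩ := Pool.Agent.R713.AS.ex_data e p r he h'
      refine ⟨D, v₁, v₂, h1, h2, fun v hv hv' => ?_⟩
      rw [h3 v hv hv']
      omega

end proof

/-- **Main theorem.** -/
theorem result : ∀ n r : ℕ, 3 ≤ n → 2 * r ≤ n → ∃ N₀ : ℕ, ∀ m : ℕ, 2 ≤ m → ∀ S T : Finset ℕ,
    (∀ ℓ ∈ S, ℓ.Prime ∧ N₀ < ℓ) → (∀ ℓ ∈ T, ℓ.Prime ∧ N₀ < ℓ ∧ ¬ ℓ ∣ m) → Disjoint S T →
    ∀ N : ℕ, ∃ (K : Type) (_ : Field K) (_ : NumberField K), Module.finrank ℚ K = n ∧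
      InfinitePlace.nrComplexPlaces K = r ∧ (N : ℤ) < |discr K| ∧
      (∀ ℓ ∈ S, ∀ _ : Fact ℓ.Prime, ∃ φ : Fin n → (K →+* ℚ_[ℓ]), Function.Injective φ) ∧
      (∀ ℓ ∈ T, ∃ P : Ideal (𝓞 K), P.IsPrime ∧ P ^ n = Ideal.span {(ℓ : 𝓞 K)}) ∧
      ∃ f : Multiplicative (Fin (r + kap n r) → ZMod m) →* ClassGroup (𝓞 K),
        Function.Injective f := by
  intro n r hn hr
  obtain ⟨hk, D, v₁, v₂, h₁, h₁₂, hcount⟩ := data n r hn hr
  refine ⟨D.c.natAbs + D.bad.natAbs, fun m hm S T hS hT hdis N => ?_⟩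
  obtain ⟨q, hqN, hq⟩ := Nat.exists_infinite_primes
    (N + D.c.natAbs + D.bad.natAbs + m + S.sup id + 1)
  have hc : ∀ ℓ : ℕ, D.c.natAbs + D.bad.natAbs < ℓ → ¬ (ℓ : ℤ) ∣ D.c := fun ℓ hℓ =>
    Pool.Agent.W289.CG.not_dvd_of_lt D.hc.ne' (by omega)
  have hb : ∀ ℓ : ℕ, D.c.natAbs + D.bad.natAbs < ℓ → ¬ (ℓ : ℤ) ∣ D.bad := fun ℓ hℓ =>
    Pool.Agent.W289.CG.not_dvd_of_lt (Pool.Agent.W289.CG.bad_ne D) (by omega)
  have hqm : ¬ q ∣ m := fun h => by
    have := Nat.le_of_dvd (by omega) h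
    omega
  have hqS : q ∉ S := fun h => by
    have h1 : q ≤ S.sup id := Finset.le_sup (f := id) h
    omega
  obtain ⟨K, hK1, hK2, hfr, hreal, hdisc, hsp, hram, hcl⟩ := fields n (kap n r) D (n - 2 * r)
    v₁ v₂ (by omega) hk h₁ h₁₂ hcount m hm S (insert q T)
    (fun ℓ hℓ => ⟨(hS ℓ hℓ).1, hc ℓ (hS ℓ hℓ).2, hb ℓ (hS ℓ hℓ).2⟩)
    (by
      intro ℓ hℓ
      rcases Finset.mem_insert.1 hℓ with rfl | hℓ
      · exact ⟨hq, hc _ (by omega), hb _ (by omega), hqm⟩
      · exact ⟨(hT ℓ hℓ).1, hc ℓ (hT ℓ hℓ).2.1, hb ℓ (hT ℓ hℓ).2.1, (hT ℓ hℓ).2.2⟩)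
    (Finset.disjoint_insert_right.2 ⟨hqS, hdis⟩) (Finset.insert_nonempty _ _)
  have h7 := Pool.Agent.W289.CG.rank_eq K
  have h8 := InfinitePlace.card_add_two_mul_card_eq_rank K
  rw [hfr, hreal] at h8
  rw [hreal] at h7
  have h9 : (q : ℤ) ≤ |discr K| :=
    Int.le_of_dvd (abs_pos.2 (discr_ne_zero K)) ((dvd_abs _ _).2 (hdisc q (Finset.mem_insert_self _ _)))
  refine ⟨K, hK1, hK2, hfr, by omega, by omega, hsp,
    fun ℓ hℓ => hram ℓ (Finset.mem_insert_of_mem hℓ), hcl _ (by omega)⟩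

end Pool.Agent.Results.MP_176ace_nt.LocalConditions
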